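import Pool.Agent.Q113.XK.Stm
import Pool.Agent.Q102.XU.WST

/-!
Project XK: stability of covers in the window gives the structure statement in the window.
-/

set_option autoImplicit false

namespace Pool.Agent.Q113.XK

open Finset Pool.Agent.W890.SF Pool.Agent.W593.IR Pool.Agent.Q54.EM Pool.Agent.Q113.XM
  Pool.Agent.Q113.XU Pool.Agent.Q113.XV

/-- **WCS**: from `WCV k` to `WSC k` (as `Pool.Agent.Q102.XU.t_WST`) -/
theorem t_WCS (hNEC : S_NEC5) (hDIT : S_DIT) (hTYC : S_TYC) :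
    ∀ k : ℕ, 3 ≤ k → WCV k → WSC k := by
  intro k hk hW c hc γ hγ
  obtain ⟨hc0, hc1, hc2⟩ := hc
  have hc : Crt k c := ⟨hc0, hc1, hc2⟩
  have hk0 : (0 : ℝ) < k := by
    have : 0 < k := by omega
    exact_mod_cast this
  obtain ⟨g1, hg1, n1, H1⟩ := hDIT k (by omega) (c / 2) γ (by linarith) hγ
  obtain ⟨g2, hg2, n2, H2⟩ := hTYC k (by omega) (c / 2) γ (by linarith) hγ
  obtain ⟨g, hgd⟩ : ∃ g : ℝ, g = min g1 g2 := ⟨_, rfl⟩
  have hg : 0 < g := by rw [hgd]; exact lt_min hg1 hg2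
  have hgg1 : g ≤ g1 := by rw [hgd]; exact min_le_left _ _
  have hgg2 : g ≤ g2 := by rw [hgd]; exact min_le_right _ _
  obtain ⟨η, hη, n4, HW⟩ := hW c hc g hg
  obtain ⟨δ, hδd⟩ : ∃ δ : ℝ, δ = min (η / 2) g := ⟨_, rfl⟩
  have hδ : 0 < δ := by rw [hδd]; exact lt_min (by linarith) hg
  have hδη : δ ≤ η / 2 := by rw [hδd]; exact min_le_left _ _
  have hδg : δ ≤ g := by rw [hδd]; exact min_le_right _ _
  obtain ⟨n3, H3⟩ := hNEC k (by omega) (c / 2) (η / 2) δ g (by linarith) (by linarith) hδ hg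
  obtain ⟨ε, hεd⟩ : ∃ ε : ℝ, ε = min (c / 2) (min (η / 2) (η / (2 * (k : ℝ) ^ 2))) := ⟨_, rfl⟩
  have hε : 0 < ε := by
    rw [hεd]
    exact lt_min (by linarith) (lt_min (by linarith) (by positivity))
  have hεc : ε ≤ c / 2 := by rw [hεd]; exact min_le_left _ _
  have hεη : ε ≤ η / 2 := by rw [hεd]; exact (min_le_right _ _).trans (min_le_left _ _)
  have hεk : ε ≤ η / (2 * (k : ℝ) ^ 2) := by
    rw [hεd]; exact (min_le_right _ _).trans (min_le_right _ _)
  refine ⟨ε, hε, max (max n1 n2) (max n3 (max n4 1)), ?_⟩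
  intro n hn F hF s hs hks hM hcard
  have hn1 : n1 ≤ n := (le_max_left _ _).trans ((le_max_left _ _).trans hn)
  have hn2 : n2 ≤ n := (le_max_right _ _).trans ((le_max_left _ _).trans hn)
  have hn3 : n3 ≤ n := (le_max_left _ _).trans ((le_max_right _ _).trans hn)
  have hn4 : n4 ≤ n := (le_max_left _ _).trans ((le_max_right _ _).trans ((le_max_right _ _).trans hn))
  have hn0 : 1 ≤ n := (le_max_right _ _).trans ((le_max_right _ _).trans ((le_max_right _ _).trans hn))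
  have hnR : (0 : ℝ) < n := by exact_mod_cast hn0
  have h2s : 2 * s ≤ n := by
    have : 2 * s ≤ k * (s + 1) := Nat.mul_le_mul (by omega) (by omega)
    omega
  rw [abs_le] at hs
  have hs1 : c / 2 * n ≤ (s : ℝ) := by
    have : ε * (n : ℝ) ≤ c / 2 * n := mul_le_mul_of_nonneg_right hεc hnR.le
    linarith [hs.1]
  obtain ⟨y, x, hy0, hysum, hsx, hxs', hNG, hF1, hsup⟩ := H3 n hn3 F hF s hs1 hks hM hcard
  -- bounds for `x`
  have hxlo : c - ε ≤ x := by
    refine le_of_mul_le_mul_right (a := (n : ℝ)) ?_ hnR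
    have : (c - ε) * (n : ℝ) = c * n - ε * n := by ring
    rw [this]
    linarith [hs.1]
  have hxhi : x ≤ c + η := by
    refine le_of_mul_le_mul_right (a := (n : ℝ)) ?_ hnR
    have h1 : (ε + δ) * (n : ℝ) ≤ η * n := mul_le_mul_of_nonneg_right (by linarith) hnR.le
    have h2 : (c + η) * (n : ℝ) = c * n + η * n := by ring
    rw [h2]
    linarith [hs.2]
  have hsum : ∑ v, y v ≤ (c + η) * n := hysum.trans (mul_le_mul_of_nonneg_right hxhi hnR.le)
  -- the lower bound for the number of tuples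
  have hpow : ((k : ℝ) * c) ^ k - η / 2 ≤ mv k x := by
    have h1 : ((k : ℝ) * (c - ε)) ^ k ≤ mv k x := by
      refine le_trans ?_ (le_max_right _ _)
      apply pow_le_pow_left₀ (mul_nonneg hk0.le (by linarith))
      exact mul_le_mul_of_nonneg_left hxlo hk0.le
    have h2 := Pool.Agent.Q102.XU.pow_sub_le_mul (a := (k : ℝ) * c) (b := (k : ℝ) * (c - ε))
      (mul_nonneg hk0.le (by linarith)) (mul_le_mul_of_nonneg_left (by linarith) hk0.le)
      hc1.le k
    have h3 : (k : ℝ) * ((k : ℝ) * c - (k : ℝ) * (c - ε)) = (k : ℝ) ^ 2 * ε := by ring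
    have h4 : (k : ℝ) ^ 2 * ε ≤ η / 2 := by
      calc (k : ℝ) ^ 2 * ε ≤ (k : ℝ) ^ 2 * (η / (2 * (k : ℝ) ^ 2)) :=
            mul_le_mul_of_nonneg_left hεk (by positivity)
        _ = η / 2 := by field_simp
    linarith
  have hNG' : (((k : ℝ) * c) ^ k - η) * (n : ℝ) ^ k ≤ (NG y k : ℝ) := by
    have h2 : (0 : ℝ) < (n : ℝ) ^ k := by positivity
    have h3 : (((k : ℝ) * c) ^ k - η) * (n : ℝ) ^ k ≤ (mv k x - η / 2) * (n : ℝ) ^ k :=
      mul_le_mul_of_nonneg_right (by linarith) h2.le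
    exact h3.trans hNG
  have hysum' : ∀ g' : ℝ, g ≤ g' → ∑ v, y v ≤ s + g' * n := by
    intro g' hg'
    have : δ * (n : ℝ) ≤ g' * n := mul_le_mul_of_nonneg_right (hδg.trans hg') hnR.le
    linarith
  have hF1' : ∀ g' : ℝ, g ≤ g' →
      ((F.filter (fun e => ∑ v ∈ e, y v < 1)).card : ℝ) ≤ g' * (n : ℝ) ^ k := by
    intro g' hg'
    exact hF1.trans (mul_le_mul_of_nonneg_right hg' (by positivity))
  rcases HW n hn4 y hy0 hsum hsup hNG' with h1 | h1
  · left
    refine H1 n hn1 F hF s hs1 h2s ((le_max_left _ _).trans hcard) y hy0 (hysum' g1 hgg1) ?_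
      (hF1' g1 hgg1)
    refine le_trans ?_ (h1.trans (mul_le_mul_of_nonneg_right hgg1 hnR.le))
    have h2 : (univ.filter (fun v : Fin n => g1 < y v ∧ y v < 1 - g1)).card ≤
        (univ.filter (fun v : Fin n => g < y v ∧ y v < 1 - g)).card := by
      apply card_le_card
      intro v hv
      rw [mem_filter] at hv ⊢
      exact ⟨hv.1, by linarith [hv.2.1], by linarith [hv.2.2]⟩
    exact_mod_cast h2
  · right
    refine H2 n hn2 F hF s hs1 hks ((le_max_right _ _).trans hcard) y hy0 (hysum' g2 hgg2) ?_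
      (hF1' g2 hgg2)
    refine le_trans ?_ (h1.trans (mul_le_mul_of_nonneg_right hgg2 hnR.le))
    have h2 : (univ.filter (fun v : Fin n => g2 < y v ∧ g2 < |y v - 1 / (k : ℝ)|)).card ≤
        (univ.filter (fun v : Fin n => g < y v ∧ g < |y v - 1 / (k : ℝ)|)).card := by
      apply card_le_card
      intro v hv
      rw [mem_filter] at hv ⊢
      exact ⟨hv.1, by linarith [hv.2.1], by linarith [hv.2.2]⟩
    exact_mod_cast h2

end Pool.Agent.Q113.XK
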