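import Pool.Agent.Q113.XU.All0
import Pool.Agent.Q113.XK.WCS
import Pool.Agent.Q224.XU.CPT
import Pool.Agent.Q182.XU.LCS
import Pool.Agent.Q238.XV.IDS
import Pool.Agent.Q238.XV.P3s
import Pool.Agent.Q238.XV.P54s
import Pool.Agent.Q121.XV.PUR
import Pool.Agent.Q121.XV.WSX
import Pool.Agent.Q86.XV.P41s
import Pool.Agent.Q79.XV.P42s
import Pool.Agent.Q79.XV.P43s
import Pool.Agent.Q86.XV.P51s
import Pool.Agent.Q79.XV.P52s
import Pool.Agent.Q79.XV.P53s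
import Pool.Agent.Q86.XV.PLASTs
import Pool.Agent.Q119.XV.NEC5
import Pool.Agent.Q119.XV.CTB
import Pool.Agent.Q14.XK.WC5
import Pool.Agent.Q195.XK.WC6
import Pool.Agent.Q195.XK.KRA

/-!
# Projects XU, XV: the exact Erdős matching conjecture for `n ≥ n0(k)`, all `s`, all `k ≥ 3`
-/

set_option autoImplicit false

namespace Pool.Agent.Q113.XK

open Finset Pool.Agent.Q54.EM Pool.Agent.Q113.XM Pool.Agent.Q113.XU Pool.Agent.Q113.XV Pool.Agent.W890.SF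
  Pool.Agent.W593.IR

/-! ## `k ≥ 6` -/

theorem t_LCS : S_LCS := Pool.Agent.Q182.XU.t_LCS t_CRF t_CNC t_CAA t_CTE
theorem t_CPT : S_CPT := Pool.Agent.Q224.XU.t_CPT t_FIN t_NMO t_LBD t_NCL t_Z0L t_ZTL t_ZEL t_SQ1
  t_STL t_CLL
theorem t_UNI : Pool.Agent.Q113.XU.S_UNI := Pool.Agent.Q102.XU.t_UNI t_LMWk t_LSS t_LCS t_RMN t_RLM t_LOP
  t_CPT

/-- stability of the i.i.d. inequality at the critical density, `k ≥ 6` -/
theorem win (k : ℕ) (h6 : 6 ≤ k) : WIN k := t_WNI k h6 (t_LMWk k (by omega)) t_UNI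

/-! ## `k = 3, 4, 5` -/

theorem purs3 : PURs 3 := Pool.Agent.Q121.XV.t_PUR.1
  (Pool.Agent.Q238.XV.t_P3s Pool.Agent.W205.K5.t_LINE Pool.Agent.W205.K5.t_CHORD).1
  (Pool.Agent.Q238.XV.t_P3s Pool.Agent.W205.K5.t_LINE Pool.Agent.W205.K5.t_CHORD).2
  (Pool.Agent.Q86.XV.t_PLASTs Pool.Agent.W205.K5.t_LINE Pool.Agent.W205.K5.t_LAST).1

theorem purs4 : PURs 4 := Pool.Agent.Q121.XV.t_PUR.2.1
  (Pool.Agent.Q86.XV.P41s.t_P41s Pool.Agent.W205.K5.t_LINE Pool.Agent.W205.K5.t_CHORD)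
  (Pool.Agent.Q79.XV.t_P42s Pool.Agent.W205.K5.t_LINE Pool.Agent.W205.K5.t_CHORD)
  (Pool.Agent.Q79.XV.P43.t_P43s Pool.Agent.W205.K5.t_LINE Pool.Agent.W205.K5.t_CHORD)
  (Pool.Agent.Q86.XV.t_PLASTs Pool.Agent.W205.K5.t_LINE Pool.Agent.W205.K5.t_LAST).2.1

theorem purs5 : PURs 5 := Pool.Agent.Q121.XV.t_PUR.2.2
  (Pool.Agent.Q86.XV.P51s.t_P51s Pool.Agent.W205.K5.t_LINE Pool.Agent.W205.K5.t_CHORD)
  (Pool.Agent.Q79.XV.P52.t_P52s Pool.Agent.W205.K5.t_LINE Pool.Agent.W205.K5.t_CHORD)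
  (Pool.Agent.Q79.XV.P53.t_P53s Pool.Agent.W205.K5.t_LINE Pool.Agent.W205.K5.t_CHORD)
  (Pool.Agent.Q238.XV.t_P54s Pool.Agent.W205.K5.t_LINE Pool.Agent.W205.K5.t_CHORD)
  (Pool.Agent.Q86.XV.t_PLASTs Pool.Agent.W205.K5.t_LINE Pool.Agent.W205.K5.t_LAST).2.2

theorem purs (k : ℕ) (h3 : 3 ≤ k) (h5 : k ≤ 5) : PURs k := by
  obtain h | h | h : k = 3 ∨ k = 4 ∨ k = 5 := by omega
  · rw [h]; exact purs3
  · rw [h]; exact purs4
  · rw [h]; exact purs5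

/-- the i.i.d. inequality at the critical density with a gain, `k = 3, 4, 5` -/
theorem iids (k : ℕ) (h3 : 3 ≤ k) (h5 : k ≤ 5) : IIDs k :=
  Pool.Agent.Q238.XV.t_IDS t_MIX1 t_MIX2 Pool.Agent.Q121.XV.t_FTG k h3
    (Pool.Agent.Q121.XV.t_TWS Pool.Agent.W205.K5.t_SYS k (by omega) (purs k h3 h5))

/-! ## all `k ≥ 3` -/

theorem t_WC5 : S_WC5 := Pool.Agent.Q14.XK.t_WC5 t_CRF t_BRG Pool.Agent.Q119.XV.t_CTB
  Pool.Agent.Q119.XV.t_RST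
theorem t_WC6 : S_WC6 := Pool.Agent.Q195.XK.t_WC6 t_BRG

/-- stability of covers at the critical density -/
theorem wcv (k : ℕ) (h3 : 3 ≤ k) : WCV k := by
  rcases Nat.lt_or_ge 5 k with h | h
  · exact t_WC6 k h3 (win k h)
  · exact t_WC5 k h3 (t_LMWk k (by omega)) (iids k h3 h)

theorem t_NEC5 : S_NEC5 := Pool.Agent.Q119.XV.t_NEC5 t_DI1 t_FAC t_MINC

/-- the structure of large families in the window -/
theorem wsc (k : ℕ) (h3 : 3 ≤ k) : WSC k := t_WCS t_NEC5 t_DIT t_TYC k h3 (wcv k h3)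

/-- the window -/
theorem wnd (k : ℕ) (h3 : 3 ≤ k) : WND k := Pool.Agent.Q121.XV.t_WSX t_CRF t_SFN t_CLQ k h3 (wsc k h3)

/-- **The exact Erdős matching conjecture for `n ≥ n0(k)` and all `s`, for every `k ≥ 3`.** -/
theorem xall (k : ℕ) (h3 : 3 ≤ k) : XALL k :=
  Pool.Agent.Q121.XV.t_XAX t_CRU t_XMC k h3 (t_LMWk k (by omega)) (wnd k h3)

end Pool.Agent.Q113.XK
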