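import Pool.Agent.Q113.XK.Stm
import Pool.Agent.W890.SF.R7

/-!
Project XK: optimal poison distributions from the exact bound `KRB`.
-/

set_option autoImplicit false

namespace Pool.Agent.Q113.XK

open Finset Pool.Agent.W890.SF

theorem lf_card {n : ℕ} (k : ℕ) (x : Fin n → ℝ) : R6.L k x = (LF k x).card := by
  classical
  apply R6.L_eq
  intro V
  rw [LF, mem_filter, mem_powersetCard]
  exact ⟨fun h => ⟨h.1.2, h.2⟩, fun h => ⟨⟨subset_univ _, h.1⟩, h.2⟩⟩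

/-- `k = 1` -/
theorem krb_one (n : ℕ) (h : ℝ) (hn : h < n) : KRB 1 n h := by
  classical
  intro y hy hs
  have h0 : 0 ≤ h := hs ▸ Finset.sum_nonneg fun v _ => hy v
  refine le_trans ?_ (le_max_left _ _)
  have hfl : ⌊h⌋₊ ≤ n := by
    have := Nat.floor_le h0
    have h2 : (⌊h⌋₊ : ℝ) ≤ n := this.trans hn.le
    exact_mod_cast h2
  rw [Nat.choose_one_right, Nat.choose_one_right, Nat.sub_sub_self hfl]
  apply Nat.le_floor
  have h1 : ((LF 1 y).card : ℝ) ≤ ∑ e ∈ LF 1 y, ∑ v ∈ e, y v := by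
    calc ((LF 1 y).card : ℝ) = ∑ e ∈ LF 1 y, (1 : ℝ) := by simp
      _ ≤ _ := Finset.sum_le_sum fun e he => (mem_filter.1 he).2
  refine h1.trans ?_
  rw [← hs]
  have h2 : ∑ e ∈ LF 1 y, ∑ v ∈ e, y v = ∑ v ∈ (LF 1 y).biUnion id, y v := by
    rw [Finset.sum_biUnion]
    · rfl
    · intro a ha b hb hab
      have ha1 := (mem_powersetCard.1 (mem_filter.1 ha).1).2
      have hb1 := (mem_powersetCard.1 (mem_filter.1 hb).1).2
      obtain ⟨u, rfl⟩ := card_eq_one.1 ha1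
      obtain ⟨w, rfl⟩ := card_eq_one.1 hb1
      simp only [Function.onFun, id_eq, disjoint_singleton]
      intro huw
      exact hab (by rw [huw])
  rw [h2]
  exact Finset.sum_le_sum_of_subset_of_nonneg (subset_univ _) fun i _ _ => hy i

theorem krl_one : KRL 1 := ⟨0, fun n _ h _ hn => krb_one n h (by simpa using hn)⟩

theorem poison (k : ℕ) (hk : 1 ≤ k) (hK : KRL k) : ∃ n0 : ℕ, ∀ n : ℕ, n0 ≤ n → ∀ h : ℝ, 0 ≤ h →
    ∃ j : ℕ, (j = 1 ∨ j = k) ∧ ∀ x : Fin n → ℝ, (∀ i, 0 ≤ x i) → ∑ i, x i = h →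
      R6.L k x ≤ R6.L k (R6.dose n h j) := by
  classical
  obtain ⟨n0, h0⟩ := hK
  refine ⟨n0, fun n hn h hh => ?_⟩
  have hk0 : (0 : ℝ) < k := by exact_mod_cast hk
  have hk1 : (1 : ℝ) ≤ k := by exact_mod_cast hk
  rcases le_or_gt (n : ℝ) (k * h) with hc | hc
  · refine ⟨k, Or.inr rfl, fun x _ _ => ?_⟩
    rw [R6.L_dose_k n k hk h hc]
    exact R6.L_le_choose k x
  · have hhn : h ≤ n := by nlinarith
    have hfl : ⌊h⌋₊ ≤ n := by
      have h2 : (⌊h⌋₊ : ℝ) ≤ n := (Nat.floor_le hh).trans hhn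
      exact_mod_cast h2
    have hfk : ⌊(k : ℝ) * h⌋₊ ≤ n := by
      have h2 : (⌊(k : ℝ) * h⌋₊ : ℝ) ≤ n := (Nat.floor_le (by positivity)).trans hc.le
      exact_mod_cast h2
    have h1 := R6.L_dose_one n k h hfl
    have h2 : (⌊(k : ℝ) * h⌋₊).choose k ≤ R6.L k (R6.dose n h k) :=
      R7.L_dose_k_ge n k hk h _ hfk (by rw [mul_comm])
    have h3 : ∀ x : Fin n → ℝ, (∀ i, 0 ≤ x i) → ∑ i, x i = h →
        R6.L k x ≤ max (R6.L k (R6.dose n h 1)) (R6.L k (R6.dose n h k)) := by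
      intro x hx hs
      rw [lf_card k x, h1]
      exact (h0 n hn h hh hc x hx hs).trans (max_le_max le_rfl h2)
    rcases le_total (R6.L k (R6.dose n h 1)) (R6.L k (R6.dose n h k)) with h4 | h4
    · exact ⟨k, Or.inr rfl, fun x hx hs => (h3 x hx hs).trans (by rw [max_eq_right h4])⟩
    · exact ⟨1, Or.inl rfl, fun x hx hs => (h3 x hx hs).trans (by rw [max_eq_left h4])⟩

end Pool.Agent.Q113.XK
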