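import Pool.Agent.Q113.XK.Stm
import Pool.Agent.Q113.XF.Val
import Pool.Agent.Q257.Afl.Lp

/-!
Project XK: the fractional matching threshold for real sizes, from the exact bound `KRB`.
-/

set_option autoImplicit false

namespace Pool.Agent.Q113.XK

open Finset Pool.Agent.W890.SF Pool.Agent.W890.SF.R3

/-- the largest size of a fractional matching is attained -/
theorem exists_max {n : ℕ} (H : Finset (Finset (Fin n))) (hne : ∀ e ∈ H, e.Nonempty) :
    ∃ w : Finset (Fin n) → ℝ, (∀ e, 0 ≤ w e ∧ w e ≤ 1) ∧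
      (∀ v : Fin n, ∑ e ∈ H.filter (fun e => v ∈ e), w e ≤ 1) ∧
      ∀ w' : Finset (Fin n) → ℝ, (∀ e ∈ H, 0 ≤ w' e) →
        (∀ v : Fin n, ∑ e ∈ H.filter (fun e => v ∈ e), w' e ≤ 1) → ∑ e ∈ H, w' e ≤ ∑ e ∈ H, w e := by
  classical
  have hcomp : IsCompact {w : Finset (Fin n) → ℝ | (∀ e, 0 ≤ w e ∧ w e ≤ 1) ∧
      ∀ v : Fin n, ∑ e ∈ H.filter (fun e => v ∈ e), w e ≤ 1} := by
    have h1 : IsCompact (Set.pi Set.univ (fun _ : Finset (Fin n) => Set.Icc (0 : ℝ) 1)) :=
      isCompact_univ_pi fun _ => isCompact_Icc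
    refine h1.of_isClosed_subset ?_ ?_
    · have h2 : {w : Finset (Fin n) → ℝ | (∀ e, 0 ≤ w e ∧ w e ≤ 1) ∧
          ∀ v : Fin n, ∑ e ∈ H.filter (fun e => v ∈ e), w e ≤ 1} =
          (⋂ e, {w | 0 ≤ w e ∧ w e ≤ 1}) ∩
          (⋂ v : Fin n, {w : Finset (Fin n) → ℝ | ∑ e ∈ H.filter (fun e => v ∈ e), w e ≤ 1}) := by
        ext w
        simp
      rw [h2]
      refine IsClosed.inter (isClosed_iInter fun e => ?_) (isClosed_iInter fun v => ?_)
      · exact (isClosed_le continuous_const (continuous_apply e)).inter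
          (isClosed_le (continuous_apply e) continuous_const)
      · exact isClosed_le (continuous_finsetSum _ fun e _ => continuous_apply e) continuous_const
    · intro w hw
      rw [Set.mem_univ_pi]
      exact fun e => ⟨(hw.1 e).1, (hw.1 e).2⟩
  obtain ⟨w, hw, hmax⟩ := hcomp.exists_isMaxOn ⟨fun _ => 0, fun _ => ⟨le_rfl, zero_le_one⟩, fun v => by simp⟩
    (Continuous.continuousOn (f := fun w : Finset (Fin n) → ℝ => ∑ e ∈ H, w e)
      (continuous_finsetSum _ fun e _ => continuous_apply e))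
  refine ⟨w, hw.1, hw.2, fun w' h1 h2 => ?_⟩
  have h3 : ∀ e ∈ H, w' e ≤ 1 := by
    intro e he
    obtain ⟨v, hv⟩ := hne e he
    refine le_trans ?_ (h2 v)
    exact Finset.single_le_sum (f := w') (fun a ha => h1 a (mem_filter.1 ha).1)
      (mem_filter.2 ⟨he, hv⟩)
  have h4 := hmax (a := fun e => if e ∈ H then w' e else 0) ⟨fun e => by
      by_cases he : e ∈ H
      · simp only [he, if_true]
        exact ⟨h1 e he, h3 e he⟩
      · simp [he], fun v => by
      refine le_trans (le_of_eq (Finset.sum_congr rfl fun e he => ?_)) (h2 v)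
      exact if_pos (mem_filter.1 he).1⟩
  have h5 : ∑ e ∈ H, (if e ∈ H then w' e else 0) = ∑ e ∈ H, w' e :=
    Finset.sum_congr rfl fun e he => by rw [if_pos he]
  exact h5.symm.le.trans h4

/-- no fractional matching of size `s > 0` gives a fractional cover of total less than `s` -/
theorem cover_of_not {n : ℕ} (H : Finset (Finset (Fin n))) (hne : ∀ e ∈ H, e.Nonempty) (s : ℝ)
    (hs : 0 < s) (hno : ¬ HasFracMatching H s) :
    ∃ y : Fin n → ℝ, (∀ v, 0 ≤ y v) ∧ (∀ e ∈ H, 1 ≤ ∑ v ∈ e, y v) ∧ ∑ v, y v < s := by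
  classical
  obtain ⟨w, hw1, hw2, hmax⟩ := exists_max H hne
  have hlt : ∑ e ∈ H, w e < s := by
    by_contra hcon
    push Not at hcon
    apply hno
    have hpos : 0 < ∑ e ∈ H, w e := lt_of_lt_of_le hs hcon
    have hq0 : 0 ≤ s / ∑ e ∈ H, w e := by positivity
    have hq1 : s / ∑ e ∈ H, w e ≤ 1 := by
      rw [div_le_one hpos]
      exact hcon
    refine ⟨fun e => s / (∑ e ∈ H, w e) * w e, fun e he => ⟨mul_nonneg hq0 (hw1 e).1, ?_⟩, fun v => ?_, ?_⟩
    · exact mul_le_one₀ hq1 (hw1 e).1 (hw1 e).2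
    · rw [← Finset.mul_sum]
      have h0 : 0 ≤ ∑ e ∈ H.filter (fun e => v ∈ e), w e := Finset.sum_nonneg fun e _ => (hw1 e).1
      exact mul_le_one₀ hq1 h0 (hw2 v)
    · rw [← Finset.mul_sum]
      exact div_mul_cancel₀ _ hpos.ne'
  obtain ⟨c, hc1, hc2, hc3⟩ := Pool.Agent.Q257.Afl.lp_dual H ((∑ e ∈ H, w e + s) / 2) (by
    rintro ⟨w', hw', ht⟩
    have := hmax w' hw'.1 (fun v => by
      refine le_trans (le_of_eq ?_) (hw'.2 v)
      refine Finset.sum_congr ?_ fun _ _ => rfl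
      ext e
      simp only [mem_filter])
    linarith)
  exact ⟨c, fun v => (hc1 v).1, hc2, by linarith⟩

/-- `f_0^s(k,n)` for real `s` -/
noncomputable def f0R (k n : ℕ) (s : ℝ) : ℕ :=
  sInf {m : ℕ | ∀ H : Finset (Finset (Fin n)), (∀ e ∈ H, e.card = k) → m ≤ H.card →
    HasFracMatching H s}

theorem real_frac (k : ℕ) (hk : 1 ≤ k) (h : KRL k) : ∃ n0 : ℕ, ∀ n : ℕ, n0 ≤ n → ∀ s : ℝ, 0 < s →
    k * s ≤ n →
    f0R k n s = 1 + max (n.choose k - (n - ⌈s⌉₊ + 1).choose k) ((⌈(k : ℝ) * s⌉₊ - 1).choose k) := by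
  classical
  obtain ⟨n0, h0⟩ := h
  refine ⟨n0, fun n hn s hs hsn => ?_⟩
  have hk0 : (0 : ℝ) < k := by exact_mod_cast hk
  have hc1 : 0 < ⌈s⌉₊ := Nat.ceil_pos.2 hs
  have hks : 0 < (k : ℝ) * s := by positivity
  have hc2 : 0 < ⌈(k : ℝ) * s⌉₊ := Nat.ceil_pos.2 hks
  have hc3 : ⌈(k : ℝ) * s⌉₊ ≤ n := Nat.ceil_le.2 hsn
  have hc4 : ⌈s⌉₊ ≤ n := by
    apply Nat.ceil_le.2
    have : s ≤ k * s := by
      have h1 : (1 : ℝ) ≤ k := by exact_mod_cast hk
      nlinarith
    linarith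
  obtain ⟨t, ht⟩ : ∃ t, ⌈s⌉₊ = t + 1 := ⟨⌈s⌉₊ - 1, by omega⟩
  obtain ⟨u, hu⟩ : ∃ u, ⌈(k : ℝ) * s⌉₊ = u + 1 := ⟨⌈(k : ℝ) * s⌉₊ - 1, by omega⟩
  have e1 : n - (t + 1) + 1 = n - t := by omega
  have hts : (t : ℝ) < s := by
    have := Nat.ceil_lt_add_one hs.le
    rw [ht] at this
    push_cast at this
    linarith
  have hus : (u : ℝ) < k * s := by
    have := Nat.ceil_lt_add_one hks.le
    rw [hu] at this
    push_cast at this
    linarith
  rw [ht, hu, e1, Nat.add_sub_cancel]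
  set D : ℕ := max (n.choose k - (n - t).choose k) (u.choose k) with hD
  have hmem : 1 + D ∈ {m : ℕ | ∀ H : Finset (Finset (Fin n)), (∀ e ∈ H, e.card = k) → m ≤ H.card →
      HasFracMatching H s} := by
    intro H hH hc
    by_contra hno
    obtain ⟨y, hy0, hy1, hy2⟩ := cover_of_not H (fun e he => by
      rw [← card_pos, hH e he]; exact hk) s hs hno
    have hh0 : 0 ≤ ∑ v, y v := Finset.sum_nonneg fun v _ => hy0 v
    have hlt : (k : ℝ) * ∑ v, y v < k * s := mul_lt_mul_of_pos_left hy2 hk0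
    have h1 := h0 n hn (∑ v, y v) hh0 (lt_of_lt_of_le hlt hsn) y hy0 rfl
    have h2 : H ⊆ LF k y := by
      intro e he
      rw [LF, mem_filter, mem_powersetCard]
      exact ⟨⟨subset_univ _, hH e he⟩, hy1 e he⟩
    have h3 : ⌊∑ v, y v⌋₊ ≤ t := by
      have := Nat.floor_lt_ceil_of_lt_of_pos hy2 hs
      omega
    have h4 : ⌊(k : ℝ) * ∑ v, y v⌋₊ ≤ u := by
      have := Nat.floor_lt_ceil_of_lt_of_pos hlt hks
      omega
    have h5 : n.choose k - (n - ⌊∑ v, y v⌋₊).choose k ≤ n.choose k - (n - t).choose k :=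
      Nat.sub_le_sub_left (Nat.choose_le_choose _ (by omega)) _
    have h6 : (⌊(k : ℝ) * ∑ v, y v⌋₊).choose k ≤ u.choose k := Nat.choose_le_choose _ h4
    have h7 : H.card ≤ D := (card_le_card h2).trans (h1.trans (max_le_max h5 h6))
    omega
  apply le_antisymm
  · exact Nat.sInf_le hmem
  · by_contra hcon
    have hle : f0R k n s ≤ D := by omega
    have hm := Nat.sInf_mem ⟨_, hmem⟩
    rcases le_max_iff.1 (hle.trans hD.le) with h1 | h1
    · obtain ⟨S, -, hSc⟩ := Finset.exists_subset_card_eq (s := (univ : Finset (Fin n))) (n := t)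
        (by rw [card_univ, Fintype.card_fin]; omega)
      have hc := meet_card k S
      rw [hSc] at hc
      have hu' : ∀ e ∈ meet k S, e.card = k := fun e he =>
        (mem_powersetCard.1 (mem_filter.1 he).1).2
      obtain ⟨w, hw1, hw2, hw3⟩ := hm (meet k S) hu' (by rw [hc]; exact h1)
      have := total_le (meet k S) S (fun e he => (mem_filter.1 he).2) w (fun e he => (hw1 e he).1) hw2
      rw [hw3, hSc] at this
      linarith
    · obtain ⟨T, -, hTc⟩ := Finset.exists_subset_card_eq (s := (univ : Finset (Fin n)))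
        (n := u) (by rw [card_univ, Fintype.card_fin]; omega)
      have hc : (T.powersetCard k).card = u.choose k := by
        rw [card_powersetCard, hTc]
      have hu' : ∀ e ∈ T.powersetCard k, e.card = k := fun e he => (mem_powersetCard.1 he).2
      obtain ⟨w, hw1, hw2, hw3⟩ := hm (T.powersetCard k) hu' (by rw [hc]; exact h1)
      have h2 := Pool.Agent.Q113.XF.total_clique k T (T.powersetCard k)
        (fun e he => ⟨(mem_powersetCard.1 he).2, (mem_powersetCard.1 he).1⟩) w hw2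
      rw [hw3, hTc] at h2
      linarith

end Pool.Agent.Q113.XK
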