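import Pool.Agent.Q113.XK.All0
import Pool.Agent.Q176.XK.PFM
import Pool.Agent.Q176.XK.CLF
import Pool.Agent.Q195.XK.HMF
import Pool.Agent.Q195.XK.KR1
import Pool.Agent.Q195.XK.KRA
import Pool.Agent.Q206.XK.KRM
import Pool.Agent.Q206.XK.KR2
import Pool.Agent.Q206.XK.KR3
import Pool.Agent.Q206.XK.KR4
import Pool.Agent.Q149.XK.K2
import Pool.Agent.Q113.XK.Real
import Pool.Agent.Q113.XK.Poison

/-!
# Project XK: the exact bound for all real totals, `n ≥ n0(k)`, every `k ≥ 1`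
-/

set_option autoImplicit false

namespace Pool.Agent.Q113.XK

open Finset Pool.Agent.Q54.EM Pool.Agent.Q113.XM Pool.Agent.Q113.XU Pool.Agent.Q113.XV Pool.Agent.W890.SF
  Pool.Agent.W593.IR

theorem t_PFM : S_PFM := Pool.Agent.Q176.XK.t_PFM t_PMN
theorem t_HMF : S_HMF := Pool.Agent.Q195.XK.t_HMF t_GRE t_PFM
theorem t_CLF : S_CLF := Pool.Agent.Q176.XK.t_CLF t_GRE t_HMF
theorem t_KRA : S_KRA := Pool.Agent.Q195.XK.t_KRA t_FAC
theorem t_KR1 : S_KR1 := Pool.Agent.Q195.XK.t_KR1 t_CRF t_XMC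
theorem t_KR2 : S_KR2 := Pool.Agent.Q206.XK.t_KR2 t_CRF t_KRA t_STC t_BRG t_TYC t_CLF
theorem t_KR3 : S_KR3 := Pool.Agent.Q206.XK.t_KR3 t_CRF t_KRA t_MINC t_FAC t_DIT t_SFN t_TYC t_CLF
theorem t_KR4 : S_KR4 := Pool.Agent.Q206.XK.t_KR4 t_NCP t_CLF
theorem t_KRM : S_KRM := Pool.Agent.Q206.XK.t_KRM t_CRU t_KR1 t_KR2 t_KR3 t_KR4

theorem krl3 (k : ℕ) (h3 : 3 ≤ k) : KRL k := t_KRM k h3 (t_LMWk k (by omega)) (wcv k h3)

theorem krl2 : KRL 2 := ⟨0, fun n _ h h0 hn => Pool.Agent.Q149.XK.t_K2 n h h0 (by exact_mod_cast hn)⟩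

/-- **the exact bound for every real total**, `n ≥ n0(k)`, every `k ≥ 1` -/
theorem krl (k : ℕ) (hk : 1 ≤ k) : KRL k := by
  obtain h | h | h : k = 1 ∨ k = 2 ∨ 3 ≤ k := by omega
  · rw [h]; exact krl_one
  · rw [h]; exact krl2
  · exact krl3 k h

end Pool.Agent.Q113.XK
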