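import Pool.Agent.Q113.XV.Stm

/-!
# Project XK: the exact fractional version for all real totals (Kikuta–Ruckle poison distributions), large `n`

For a weight `y ≥ 0` on `Fin n` with total `h` (real), `k h < n`, `n ≥ n0(k)`: the number of `k`-sets with
`y`-weight at least one is at most `max (C(n,k) - C(n-⌊h⌋,k)) (C(⌊kh⌋,k))`.

Every `S_X : Prop` is a statement; the docstring gives its proof.
-/

set_option autoImplicit false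

namespace Pool.Agent.Q113.XK

open Finset Pool.Agent.Q113.XM Pool.Agent.Q113.XU Pool.Agent.Q113.XV Pool.Agent.Q54.EM Pool.Agent.W890.SF
  Pool.Agent.W593.IR

/-- the lethal `k`-sets -/
noncomputable def LF {n : ℕ} (k : ℕ) (y : Fin n → ℝ) : Finset (Finset (Fin n)) :=
  ((univ : Finset (Fin n)).powersetCard k).filter (fun e => 1 ≤ ∑ v ∈ e, y v)

/-- `F` has a fractional matching of total weight at least `t` -/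
def HasF {n : ℕ} (F : Finset (Finset (Fin n))) (t : ℝ) : Prop :=
  ∃ w : Finset (Fin n) → ℝ, (∀ e, 0 ≤ w e) ∧ (∀ v : Fin n, ∑ e ∈ F.filter (fun e => v ∈ e), w e ≤ 1) ∧
    t ≤ ∑ e ∈ F, w e

/-- PFM (perfect fractional matchings in a nearly complete part). `N = |T|`, `j = N mod k`. For every
`J ⊆ T` with `|J| = j` the set `T \ J` satisfies the hypotheses of `XM.S_PMN` (with `c/2`; `ms` is monotone in
`T`), so there is a matching `M_J ⊆ F` inside `T \ J` covering it, with `(N-j)/k` edges. Let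
`w = (N/(N-j)) · (average over J of the indicator of M_J)` on `F` (`0` elsewhere). The average of `1[v ∉ J]`
over `J` is `(N-j)/N` for each `v ∈ T`, so all vertex sums are `1` on `T` and `0` outside; the total is `N/k`. -/
def S_PFM : Prop := ∀ k : ℕ, 3 ≤ k → ∀ c : ℝ, 0 < c → ∃ γ : ℝ, 0 < γ ∧ ∃ n0 : ℕ,
  ∀ n : ℕ, n0 ≤ n → ∀ F : Finset (Finset (Fin n)), Unif k F → ∀ T : Finset (Fin n),
    c * n ≤ (T.card : ℝ) → (∀ v ∈ T, (ms k F T v : ℝ) ≤ γ * (n : ℝ) ^ (k - 1)) →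
    ∃ w : Finset (Fin n) → ℝ, (∀ e, 0 ≤ w e) ∧ (∀ e ∈ F, w e ≠ 0 → e ⊆ T) ∧
      (∀ v : Fin n, ∑ e ∈ F.filter (fun e => v ∈ e), w e ≤ 1) ∧ (T.card : ℝ) / k ≤ ∑ e ∈ F, w e

/-- HMF. `X = (H \ T) \ Z`; `XM.S_GRE` for `X` avoiding `Z` gives a matching `M1` with `|X|` edges covering `X`;
at most `(k-1)|X|` vertices of `T` are in `V(M1)`. `T1 = (T \ Z) \ V(M1)`; `PFM` (with `c0/2`) gives `w1` on `T1`;
`w = 1_{M1} + w1` has total `≥ |X| + |T1|/k ≥ |X| + (|T \ Z| - (k-1)|X|)/k = |H \ Z|/k`. -/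
def S_HMF : Prop := ∀ k : ℕ, 3 ≤ k → ∀ c0 c : ℝ, 0 < c0 → 0 < c → ∃ δ : ℝ, 0 < δ ∧ ∃ n0 : ℕ,
  ∀ n : ℕ, n0 ≤ n → ∀ F : Finset (Finset (Fin n)), Unif k F → ∀ T H Z : Finset (Fin n), T ⊆ H →
    c0 * n ≤ (T.card : ℝ) → (∀ v ∈ T, (ms k F T v : ℝ) ≤ δ * (n : ℝ) ^ (k - 1)) →
    (∀ v ∈ H, c * (n : ℝ) ^ (k - 1) ≤ (dg F v : ℝ)) → ((H \ T).card : ℝ) ≤ δ * n →
    (Z.card : ℝ) ≤ δ * n →
    ∃ w : Finset (Fin n) → ℝ, (∀ e, 0 ≤ w e) ∧ (∀ e ∈ F, w e ≠ 0 → Disjoint e Z) ∧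
      (∀ v : Fin n, ∑ e ∈ F.filter (fun e => v ∈ e), w e ≤ 1) ∧ ((H \ Z).card : ℝ) / k ≤ ∑ e ∈ F, w e

/-- CLF: fractional version of `XM.S_CLQ` (`Q224/XM/CLQ.lean`), with `m` in place of `k (s+1) - 1`. `c2 > 0` small,
`H = {v : c2 n^(k-1) ≤ dg F v}`, `T ⊆ H`. (i) If `|H| ≥ m + 1` let `H' ⊆ H` have exactly `m + 1` elements and
contain as many elements of `T` as possible, `T' = T ∩ H'`; `HMF` with `Z = ∅`. (ii) Otherwise `a = m - |H| ≥ 0`,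
`a ≤ γ n`; `FL`, `B`, `b` as in `S_CLQ`. If `FL` has a matching `M0` with `a + 1` edges: `Z = V(M0)`, at least
`a+1` of its `k(a+1)` elements are outside `H`, `HMF` gives `w` avoiding `Z`, and `1_{M0} + w` has total at least
`a + 1 + (m - a - (k-1)(a+1))/k = (m+1)/k`. Otherwise the same counting as in `S_CLQ` gives `|F| ≤ C(m,k)`. -/
def S_CLF : Prop := ∀ k : ℕ, 3 ≤ k → ∀ c : ℝ, 0 < c → 1 < 2 * ((k : ℝ) * c) ^ (k - 1) →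
  ∃ γ : ℝ, 0 < γ ∧ ∃ n0 : ℕ,
  ∀ n : ℕ, n0 ≤ n → ∀ F : Finset (Finset (Fin n)), Unif k F → ∀ (m : ℕ) (T : Finset (Fin n)),
    k * c * n ≤ (m : ℝ) → m + 1 ≤ n → (m : ℝ) - γ * n ≤ (T.card : ℝ) →
    (∀ v ∈ T, (ms k F T v : ℝ) ≤ γ * (n : ℝ) ^ (k - 1)) →
    m.choose k < F.card → HasF F (((m : ℝ) + 1) / k)

/-- stability of covers in the window -/
def WCV (k : ℕ) : Prop := ∀ c : ℝ, Crt k c → ∀ γ : ℝ, 0 < γ → ∃ ε : ℝ, 0 < ε ∧ ∃ n0 : ℕ,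
  ∀ n : ℕ, n0 ≤ n → ∀ y : Fin n → ℝ, (∀ v, 0 ≤ y v) → ∑ v, y v ≤ (c + ε) * n →
    ((univ.filter (fun v => y v ≠ 0)).card : ℝ) ≤ k * ∑ v, y v →
    (((k : ℝ) * c) ^ k - ε) * (n : ℝ) ^ k ≤ (NG y k : ℝ) →
    (((univ.filter (fun v : Fin n => γ < y v ∧ y v < 1 - γ)).card : ℕ) : ℝ) ≤ γ * n ∨
    (((univ.filter (fun v : Fin n => γ < y v ∧ γ < |y v - 1 / (k : ℝ)|)).card : ℕ) : ℝ) ≤ γ * n

/-- WC6: from `XU.WIN` for the uniform law (`XM.S_BRG`). -/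
def S_WC6 : Prop := ∀ k : ℕ, 3 ≤ k → WIN k → WCV k

/-- WC5: the law part of the proof of `XV.S_WS5`: `U ⊇ supp y`, `|U| = ⌈k ∑ y⌉`, `y*`, `RST`, `CTB`, `IIDs`. -/
def S_WC5 : Prop := ∀ k : ℕ, 3 ≤ k → LMW k → IIDs k → WCV k

/-- the bound -/
def KRB (k n : ℕ) (h : ℝ) : Prop := ∀ y : Fin n → ℝ, (∀ v, 0 ≤ y v) → ∑ v, y v = h →
  (LF k y).card ≤ max (n.choose k - (n - ⌊h⌋₊).choose k) ((⌊(k : ℝ) * h⌋₊).choose k)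

/-- KRA (lower bound for the number of tuples). `S_FAC`: `k! |LF k y| ≤ NG y k`; and
`k! (C(n,k) - C(n-⌊h⌋,k)) ≥ (1 - (1-h/n)^k - η) n^k`, `k! C(⌊kh⌋,k) ≥ ((k h/n)^k - η) n^k` for `n ≥ n0`, uniformly
in `h ∈ [0, n/k]`. -/
def S_KRA : Prop := ∀ k : ℕ, 2 ≤ k → ∀ η : ℝ, 0 < η → ∃ n0 : ℕ, ∀ n : ℕ, n0 ≤ n → ∀ h : ℝ, 0 ≤ h →
  (k : ℝ) * h < n → ∀ y : Fin n → ℝ, (∀ v, 0 ≤ y v) →
  max (n.choose k - (n - ⌊h⌋₊).choose k) ((⌊(k : ℝ) * h⌋₊).choose k) ≤ (LF k y).card →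
  (mv k (h / n) - η) * (n : ℝ) ^ k ≤ (NG y k : ℝ)

/-- KR1 (star range). `s = ⌊h⌋`; `F = LF k y` has no `s + 1` disjoint members (their weight would be
`≥ s + 1 > h`), `k (s+1) ≤ n`. By `XM.S_XMC` (with `ε = e0`; `s ≤ h ≤ (c - e0) n`) `|F| ≤ max (C(n,k) - C(n-s,k))
(C(k(s+1)-1,k))`, and the first term is the larger one for `s ≤ (c-e0) n`, `n ≥ n0`: for `s ≤ δ n`,
`C(n,k) - C(n-s,k) ≥ s C(n-s,k-1) ≥ (2 k s)^k/k!` (`s ≥ 1`; for `s = 0` both are `0`); for `δ n ≤ s ≤ (c-e0) n`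
divide by `n^k`: `1 - (1-x)^k - (kx)^k` is bounded below by a positive constant on `[δ, c - e0]` (the function
`(kx)^k + (1-x)^k` is strictly convex with value `1` at `0` and `c`). -/
def S_KR1 : Prop := ∀ k : ℕ, 3 ≤ k → LMW k → ∀ c : ℝ, Crt k c → ∀ e0 : ℝ, 0 < e0 → ∃ n0 : ℕ,
  ∀ n : ℕ, n0 ≤ n → ∀ h : ℝ, 0 ≤ h → h ≤ (c - e0) * n → KRB k n h

/-- KR2 (clique range). Suppose `F = LF k y` is larger than the maximum; `x = h/n`, `m = ⌊kh⌋`. `KRA`, `XM.S_STC` for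
the uniform law (`S_BRG`; `mv k x = (kx)^k` by `CRF`): at most `γ' n` vertices with `γ' < y v`,
`γ' < |y v - 1/k|`. `XM.S_TYC` with `s = ⌊(m+1)/k⌋ - 1` (so `k(s+1) ≤ m + 1 ≤ n`, `C(k(s+1)-1,k) ≤ C(m,k) ≤ |F|`,
`h ≤ s + 2 ≤ s + γ' n`) gives `T`, `|T| ≥ k s - γ n/2 ≥ m - γ n`. `CLF`: `F` has a fractional matching of total
weight `≥ (m+1)/k > h`, impossible (weak duality: `∑_e w e ≤ ∑_e w e y(e) ≤ ∑_v y v`). -/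
def S_KR2 : Prop := ∀ k : ℕ, 3 ≤ k → LMW k → ∀ c : ℝ, Crt k c → ∀ e0 ξ : ℝ, 0 < e0 → 0 < ξ → ∃ n0 : ℕ,
  ∀ n : ℕ, n0 ≤ n → ∀ h : ℝ, (c + e0) * n ≤ h → (k : ℝ) * h ≤ (1 - ξ) * n → KRB k n h

/-- KR3 (window). Suppose `F = LF k y` is larger than the maximum. `S_MINC` gives `y''` with `∑ y'' ≤ h`, support at
most `k ∑ y''`, covering `F`; `NG y'' k ≥ k! |F|` (`S_FAC`) as in `KRA`; `|mv k (h/n) - (kc)^k| ≤ C |h/n - c|`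
(`CRF`). `WCV`. First alternative: `XU.S_DIT` with `s = ⌊h⌋` (`∑ y'' ≤ h ≤ s + 1`), then `XM.S_SFN`: `F` has `s + 1`
disjoint members, whose `y`-weight is `≥ s + 1 > h`. Second alternative: `S_TYC` and `CLF` as in `KR2` (with
`c' < c`, `2 (k c')^(k-1) > 1`, in `CLF`). -/
def S_KR3 : Prop := ∀ k : ℕ, 3 ≤ k → LMW k → WCV k → ∀ c : ℝ, Crt k c → ∃ ε : ℝ, 0 < ε ∧ ∃ n0 : ℕ,
  ∀ n : ℕ, n0 ≤ n → ∀ h : ℝ, |h - c * n| ≤ ε * n → KRB k n h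

/-- KR4 (near `1/k`). `XM.S_NCP` with `s = ⌊(m+1)/k⌋ - 1`, `m = ⌊kh⌋`, and `CLF` with some `c'`, `k c' < 1`,
`2 (k c')^(k-1) > 1`; weak duality. -/
def S_KR4 : Prop := ∀ k : ℕ, 3 ≤ k → ∃ ξ : ℝ, 0 < ξ ∧ ∃ n0 : ℕ,
  ∀ n : ℕ, n0 ≤ n → ∀ h : ℝ, (1 - ξ) * n ≤ (k : ℝ) * h → (k : ℝ) * h < n → KRB k n h

/-- the exact bound for large `n` -/
def KRL (k : ℕ) : Prop := ∃ n0 : ℕ, ∀ n : ℕ, n0 ≤ n → ∀ h : ℝ, 0 ≤ h → (k : ℝ) * h < n → KRB k n h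

/-- MAIN: `KR1` - `KR4`; `CRU`. -/
def S_KRM : Prop := ∀ k : ℕ, 3 ≤ k → LMW k → WCV k → KRL k

end Pool.Agent.Q113.XK
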